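import Pool.Agent.Helper74.DI.St

set_option autoImplicit false

namespace Pool.Agent.Helper15.DI

open Pool.Agent.Helper74 Pool.Agent.Helper74.DI
open Pool.Agent.Helper74.NM (NC)
open Pool.Agent.Helper74.WB (OP QW rl enc)

private theorem qw_enc {Λ : Type} (w : List ((Λ × Bool) × Bool)) : QW (w.flatMap enc) := by
  intro a ha
  rw [List.mem_flatMap] at ha
  obtain ⟨b, -, hb⟩ := ha
  unfold enc at hb
  rcases b with ⟨x, o⟩
  cases o
  · simp only [Bool.false_eq_true, if_false, List.mem_cons, List.not_mem_nil, or_false] at hb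
    rcases hb with rfl | rfl <;> rfl
  · simp only [if_true, List.mem_cons, List.not_mem_nil, or_false] at hb
    subst hb
    rfl

private theorem qw_map {Λ Λ' : Type} (e : Λ → Λ') (w : List ((Λ × Bool) × Bool)) (h : QW w) :
    QW (w.map (rl e)) := by
  intro a ha
  rw [List.mem_map] at ha
  obtain ⟨b, hb, rfl⟩ := ha
  exact h b hb

private theorem qw_q2 (w : List ((ℕ × Bool) × Bool)) (h : QW w) : QW (w.flatMap q2) := by
  intro a ha
  rw [List.mem_flatMap] at ha
  obtain ⟨b, hb, hab⟩ := ha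
  unfold q2 at hab
  rw [List.mem_append, List.mem_cons] at hab
  rcases hab with hab | hab | hab
  · rw [List.eq_of_mem_replicate hab]
  · rw [hab]
    exact h b hb
  · rw [List.eq_of_mem_replicate hab]

private theorem enc_ne {Λ : Type} (a : (Λ × Bool) × Bool) : enc a ≠ [] := by
  unfold enc
  simp

private theorem q2_ne (a : (ℕ × Bool) × Bool) : q2 a ≠ [] := by
  unfold q2
  simp

private theorem flatMap_ne {α β : Type} (f : α → List β) (hf : ∀ a, f a ≠ []) (l : List α)
    (hl : l ≠ []) : l.flatMap f ≠ [] := by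
  cases l with
  | nil => exact absurd rfl hl
  | cons a l =>
    rw [List.flatMap_cons]
    intro h
    exact hf a (List.append_eq_nil_iff.1 h).1

theorem hTPR (hQ2A : StQ2A) (hQ2B : StQ2B) (hENC : WB.StENC) (hREL : WB.StREL) : StTPR := by
  intro G R hR Λ hΛ
  obtain ⟨k₀, hk₀, hk⟩ := hR
  obtain ⟨e, he⟩ := exists_injective_nat (Λ × Bool)
  refine ⟨fun a => (((enc a).map (rl e)).flatMap q2).flatMap k₀, ?_, ?_⟩
  · intro a
    refine flatMap_ne k₀ hk₀ _ (flatMap_ne q2 q2_ne _ ?_)
    intro h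
    exact enc_ne a (List.map_eq_nil_iff.1 h)
  · intro w
    have e1 : (w.flatMap fun a => (((enc a).map (rl e)).flatMap q2).flatMap k₀) =
        (((w.flatMap enc).map (rl e)).flatMap q2).flatMap k₀ := by
      rw [List.map_flatMap]
      simp only [List.flatMap_assoc]
    rw [e1]
    have hq : QW ((w.flatMap enc).map (rl e)) := qw_map e _ (qw_enc w)
    rw [hENC Λ w, hREL (Λ × Bool) ℕ e he, ← hk _ (qw_q2 _ hq)]
    exact ⟨hQ2A _ hq, hQ2B _ hq⟩

end Pool.Agent.Helper15.DI
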